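import Pool.Agent.H93.Nut.Small
import Pool.Agent.H93.Neg.NoCub10
import Pool.Agent.H93.Neg.NoCub14
import Pool.Agent.H93.Neg.NoCub18
import Pool.Agent.H93.Neg.NoQua11
import Pool.Agent.H93.Neg.NoQua13
import Pool.Agent.H93.Neg.NoQua14

/-!
The orders of regular nut graphs of degree at least five.
-/

set_option autoImplicit false

namespace Pool.Agent.Results.MP_a38f8e_co.AllDegrees

open Classical in
/-- For every `ρ ≥ 5` and every `n` a `ρ`-regular nut graph on `n` vertices exists if and only if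
`n ≥ ρ + 4`, `n ρ` is even and `(ρ, n)` is not one of the six exceptional pairs. -/
theorem result (ρ n : ℕ) (h5 : 5 ≤ ρ) :
    (∃ (V : Type) (_ : Fintype V) (G : SimpleGraph V),
      Fintype.card V = n ∧ G.IsRegularOfDegree ρ ∧ 2 ≤ Fintype.card V ∧
      ∃ x : V → ℝ, (∀ v, x v ≠ 0) ∧
        LinearMap.ker (Matrix.toLin' (G.adjMatrix ℝ)) = Submodule.span ℝ {x}) ↔
      ρ + 4 ≤ n ∧ Even (n * ρ) ∧
        (ρ, n) ∉ [(6, 10), (6, 11), (8, 13), (9, 14), (10, 14), (14, 18)] := by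
  have hz : (ρ, n) ∈ [(6, 10), (6, 11), (8, 13), (9, 14), (10, 14), (14, 18)] →
      ¬ ∃ (V : Type) (_ : Fintype V) (G : SimpleGraph V),
      Fintype.card V = n ∧ G.IsRegularOfDegree ρ ∧ 2 ≤ Fintype.card V ∧
      ∃ x : V → ℝ, (∀ v, x v ≠ 0) ∧
        LinearMap.ker (Matrix.toLin' (G.adjMatrix ℝ)) = Submodule.span ℝ {x} := by
    intro h
    simp only [List.mem_cons, Prod.mk.injEq, List.not_mem_nil, or_false] at h
    rcases h with ⟨rfl, rfl⟩ | ⟨rfl, rfl⟩ | ⟨rfl, rfl⟩ | ⟨rfl, rfl⟩ | ⟨rfl, rfl⟩ | ⟨rfl, rfl⟩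
    · exact Pool.Agent.H93.Neg.reduce (k := 3) (by norm_num) (by norm_num)
        (fun V _ Nb z h => Pool.Agent.H93.Neg.no_3_10 h)
    · exact Pool.Agent.H93.Neg.reduce (k := 4) (by norm_num) (by norm_num)
        (fun V _ Nb z h => Pool.Agent.H93.Neg.no_4_11 h)
    · exact Pool.Agent.H93.Neg.reduce (k := 4) (by norm_num) (by norm_num)
        (fun V _ Nb z h => Pool.Agent.H93.Neg.no_4_13 h)
    · exact Pool.Agent.H93.Neg.reduce (k := 4) (by norm_num) (by norm_num)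
        (fun V _ Nb z h => Pool.Agent.H93.Neg.no_4_14 h)
    · exact Pool.Agent.H93.Neg.reduce (k := 3) (by norm_num) (by norm_num)
        (fun V _ Nb z h => Pool.Agent.H93.Neg.no_3_14 h)
    · exact Pool.Agent.H93.Neg.reduce (k := 3) (by norm_num) (by norm_num)
        (fun V _ Nb z h => Pool.Agent.H93.Neg.no_3_18 h)
  constructor
  · intro h
    exact ⟨Pool.Agent.H93.Nut.lower_of_mem (by omega) h, Pool.Agent.TH296.Nut.even_mul_of_mem h,
      fun hh => hz hh h⟩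
  · rintro ⟨k1, k2, h⟩
    simp only [List.mem_cons, Prod.mk.injEq, List.not_mem_nil, or_false, not_or, not_and] at h
    obtain ⟨h1, h2, h3, h4, h6, h7⟩ := h
    exact (Pool.Agent.H93.Nut.good_all h5 k1 k2
      (by rintro ⟨a, b | b⟩; exacts [h1 a b, h2 a b]) (fun ⟨a, b⟩ => h3 a b)
      (fun ⟨a, b⟩ => h4 a b) (fun ⟨a, b⟩ => h6 a b) (fun ⟨a, b⟩ => h7 a b)).mem (by omega)

end Pool.Agent.Results.MP_a38f8e_co.AllDegrees
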